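import Pool.Agent.H55.K2.CSW

/-!
# Clusters: the displacement starts at the point of a member

As `CLU3` and `ctx_ati`, but the position of the member `s` is compared with a variable `A t s`
which depends on the pair: the position at the time of `s` of the line through the point of the
member `t` whose velocity block vanishes. It is a function of the context and of the point of `t`
with the offset of the fan at this point.
-/

set_option autoImplicit false

namespace Pool.CLU

open Finset Real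
open Pool.Agent.H49.Ent Pool.Agent.H32.Dense Pool.STK Pool.KAF Pool.KAL

/-- CLU4. Translations, with a base variable for every pair of members. -/
theorem clu4_thm (d N : ℕ) (Ω S β ι : Type) [Fintype Ω] [Fintype ι] (p : Ω → ℝ) (o : Ω → S)
    (V : Ω → β) (X : ι → Ω → Fin d → ℤ) (A : ι → ι → Ω → Fin d → ℤ)
    (g : ι → ι → β → S → Fin d → ℤ) (Bd : ι → ι → Set Ω) (R e e' ε ε' : ℝ) (hp : IsLaw p)
    (hN : 0 < N) (hR : 0 ≤ R) (hε : 0 < ε) (hε' : 0 < ε')
    (hMI : ∀ s, Pool.KVA.MI p o (X s) V ≤ e) (hMA : ∀ t s, Pool.KVA.MI p o (A t s) V ≤ e')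
    (hX : ∀ t s ω, ω ∉ Bd t s → ∀ i, |((X s ω i - A t s ω i - g t s (V ω) (o ω) i : ℤ) : ℝ)| ≤ R) :
    ∃ G : Set β, (∀ v ∈ G, 0 < law p V v) ∧
      Pr p {ω | V ω ∉ G} ≤ (Fintype.card ι * e + (Fintype.card ι : ℝ) ^ 2 * e') / ε +
        (∑ t, ∑ s, Pr p (Bd t s)) / ε' ∧
      ∀ v ∈ G, ∀ t s a a', 0 < law (cond p V v) o a → 0 < law (cond p V v) o a' →
        TIV (smp d N (cond p V v)) (smX (N := N) (X s)) (fun _ => ())
          (g t s v a - g t s v a')
          ((2 * Real.sqrt ε + ε') / law (cond p V v) o a +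
            (2 * Real.sqrt ε + ε') / law (cond p V v) o a' + 2 * (d * R / N)) := by
  classical
  obtain ⟨G, hG⟩ : ∃ G : Set β, ∀ v, v ∈ G ↔ 0 < law p V v ∧
      (∀ s, DD (cond p V v) o (X s) ≤ ε) ∧ (∀ t s, DD (cond p V v) o (A t s) ≤ ε) ∧
      ∀ t s, Pr (cond p V v) (Bd t s) ≤ ε' :=
    ⟨{v | 0 < law p V v ∧ (∀ s, DD (cond p V v) o (X s) ≤ ε) ∧
      (∀ t s, DD (cond p V v) o (A t s) ≤ ε) ∧
      ∀ t s, Pr (cond p V v) (Bd t s) ≤ ε'}, fun v => Iff.rfl⟩
  refine ⟨G, fun v hv => ((hG v).mp hv).1, ?_, ?_⟩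
  · have h1 : Pr p {ω | V ω ∉ G} = ∑ v ∈ univ.image V, law p V v * (if v ∈ G then 0 else 1) := by
      rw [← sum_mul_eq_sum_image p V (fun v => if v ∈ G then 0 else 1), Pool.KAF.Pr_eq]
      refine Finset.sum_congr rfl fun ω _ => ?_
      by_cases h : V ω ∈ G <;> simp [h]
    have h2 : ∀ v ∈ univ.image V, law p V v * (if v ∈ G then 0 else 1) ≤
        ((∑ s, law p V v * DD (cond p V v) o (X s)) +
          (∑ t, ∑ s, law p V v * DD (cond p V v) o (A t s))) / ε +
          (∑ t, ∑ s, law p V v * Pr (cond p V v) (Bd t s)) / ε' := by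
      intro v _
      rcases (law_nonneg hp.nonneg V v).eq_or_lt with h0 | h0
      · rw [← h0]; simp
      have hl := cond_law hp V h0
      have hD : ∀ s, 0 ≤ DD (cond p V v) o (X s) := fun s => DD_nonneg hl _ _
      have hA : ∀ t s, 0 ≤ DD (cond p V v) o (A t s) := fun t s => DD_nonneg hl _ _
      have hP : ∀ t s, 0 ≤ Pr (cond p V v) (Bd t s) := fun t s =>
        Pool.KAF.Pr_nonneg hl.nonneg _
      simp_rw [← Finset.mul_sum]
      rw [← mul_add, mul_div_assoc, mul_div_assoc, ← mul_add]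
      refine mul_le_mul_of_nonneg_left ?_ h0.le
      have s0 : 0 ≤ ∑ s, DD (cond p V v) o (X s) := Finset.sum_nonneg fun s _ => hD s
      have s0' : 0 ≤ ∑ t, ∑ s, DD (cond p V v) o (A t s) :=
        Finset.sum_nonneg fun t _ => Finset.sum_nonneg fun s _ => hA t s
      have s1 : 0 ≤ (∑ s, DD (cond p V v) o (X s) + ∑ t, ∑ s, DD (cond p V v) o (A t s)) / ε :=
        div_nonneg (add_nonneg s0 s0') hε.le
      have s2 : 0 ≤ (∑ t, ∑ s, Pr (cond p V v) (Bd t s)) / ε' :=
        div_nonneg (Finset.sum_nonneg fun t _ => Finset.sum_nonneg fun s _ => hP t s) hε'.le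
      by_cases hv : v ∈ G
      · rw [if_pos hv]; linarith
      · rw [if_neg hv]
        have hv' : ¬ (0 < law p V v ∧ (∀ s, DD (cond p V v) o (X s) ≤ ε) ∧
          (∀ t s, DD (cond p V v) o (A t s) ≤ ε) ∧
          ∀ t s, Pr (cond p V v) (Bd t s) ≤ ε') := fun h => hv ((hG v).mpr h)
        by_cases hD' : ∀ s, DD (cond p V v) o (X s) ≤ ε
        · by_cases hA' : ∀ t s, DD (cond p V v) o (A t s) ≤ ε
          · have hP' : ¬ ∀ t s, Pr (cond p V v) (Bd t s) ≤ ε' := fun h => hv' ⟨h0, hD', hA', h⟩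
            push Not at hP'
            obtain ⟨t, s, hts⟩ := hP'
            have h3 : Pr (cond p V v) (Bd t s) ≤ ∑ t, ∑ s, Pr (cond p V v) (Bd t s) :=
              (Finset.single_le_sum (fun s _ => hP t s) (mem_univ s)).trans
                (Finset.single_le_sum (f := fun t => ∑ s, Pr (cond p V v) (Bd t s))
                  (fun t _ => Finset.sum_nonneg fun s _ => hP t s) (mem_univ t))
            have h4 : 1 ≤ (∑ t, ∑ s, Pr (cond p V v) (Bd t s)) / ε' := by
              rw [le_div_iff₀ hε']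
              linarith
            linarith
          · push Not at hA'
            obtain ⟨t, s, hts⟩ := hA'
            have h3 : DD (cond p V v) o (A t s) ≤ ∑ t, ∑ s, DD (cond p V v) o (A t s) :=
              (Finset.single_le_sum (fun s _ => hA t s) (mem_univ s)).trans
                (Finset.single_le_sum (f := fun t => ∑ s, DD (cond p V v) o (A t s))
                  (fun t _ => Finset.sum_nonneg fun s _ => hA t s) (mem_univ t))
            have h4 : 1 ≤ (∑ s, DD (cond p V v) o (X s) +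
                ∑ t, ∑ s, DD (cond p V v) o (A t s)) / ε := by
              rw [le_div_iff₀ hε]
              linarith
            linarith
        · push Not at hD'
          obtain ⟨s, hs⟩ := hD'
          have h3 : DD (cond p V v) o (X s) ≤ ∑ s, DD (cond p V v) o (X s) :=
            Finset.single_le_sum (f := fun s => DD (cond p V v) o (X s))
              (fun s _ => hD s) (mem_univ s)
          have h4 : 1 ≤ (∑ s, DD (cond p V v) o (X s) +
              ∑ t, ∑ s, DD (cond p V v) o (A t s)) / ε := by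
            rw [le_div_iff₀ hε]
            linarith
          linarith
    rw [h1]
    refine (Finset.sum_le_sum h2).trans ?_
    rw [Finset.sum_add_distrib, ← Finset.sum_div, ← Finset.sum_div, Finset.sum_add_distrib]
    have e1 : ∑ v ∈ univ.image V, ∑ s, law p V v * DD (cond p V v) o (X s) =
        ∑ s, Pool.KVA.MI p o (X s) V := by
      rw [Finset.sum_comm]
      exact Finset.sum_congr rfl fun s _ => (MI_eq_sum hp.nonneg o (X s) V).symm
    have e1' : ∑ v ∈ univ.image V, ∑ t, ∑ s, law p V v * DD (cond p V v) o (A t s) =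
        ∑ t, ∑ s, Pool.KVA.MI p o (A t s) V := by
      rw [Finset.sum_comm]
      refine Finset.sum_congr rfl fun t _ => ?_
      rw [Finset.sum_comm]
      exact Finset.sum_congr rfl fun s _ => (MI_eq_sum hp.nonneg o (A t s) V).symm
    have e2 : ∑ v ∈ univ.image V, ∑ t, ∑ s, law p V v * Pr (cond p V v) (Bd t s) =
        ∑ t, ∑ s, Pr p (Bd t s) := by
      rw [Finset.sum_comm]
      refine Finset.sum_congr rfl fun t _ => ?_
      rw [Finset.sum_comm]
      exact Finset.sum_congr rfl fun s _ => (Pr_eq_sum_cond hp.nonneg V (Bd t s)).symm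
    rw [e1, e1', e2]
    have e3 : ∑ s, Pool.KVA.MI p o (X s) V ≤ Fintype.card ι * e := by
      refine (Finset.sum_le_card_nsmul _ _ e fun s _ => hMI s).trans ?_
      rw [nsmul_eq_mul, Finset.card_univ]
    have e4 : ∑ t, ∑ s, Pool.KVA.MI p o (A t s) V ≤ (Fintype.card ι : ℝ) ^ 2 * e' := by
      have e5 : ∀ t, ∑ s, Pool.KVA.MI p o (A t s) V ≤ Fintype.card ι * e' := by
        intro t
        refine (Finset.sum_le_card_nsmul _ _ e' fun s _ => hMA t s).trans ?_
        rw [nsmul_eq_mul, Finset.card_univ]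
      refine (Finset.sum_le_card_nsmul _ _ _ fun t _ => e5 t).trans ?_
      rw [nsmul_eq_mul, Finset.card_univ]
      exact le_of_eq (by ring)
    gcongr
  · intro v hv t s a a' ha ha'
    obtain ⟨h0, hD, hA, hP⟩ := (hG v).mp hv
    have hl := cond_law hp V h0
    have hc : ∀ Y : Ω → Fin d → ℤ, DD (cond p V v) o Y ≤ ε →
        H (cond p V v) (fun ω => (Y ω, ())) + H (cond p V v) o -
        H (cond p V v) (fun ω => ((Y ω, ()), o ω)) ≤ ε := by
      intro Y hY
      have h1 : H (cond p V v) (fun ω => (Y ω, ())) = H (cond p V v) Y := by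
        refine H_congr hl.nonneg ?_ ?_
        · intro ω ω' _ _ h
          exact Prod.ext h rfl
        · intro ω ω' _ _ h
          exact congrArg Prod.fst h
      have h2 : H (cond p V v) (fun ω => ((Y ω, ()), o ω)) =
          H (cond p V v) (fun ω => (o ω, Y ω)) := by
        refine H_congr hl.nonneg ?_ ?_
        · intro ω ω' _ _ h
          simp only [Prod.mk.injEq] at h ⊢
          tauto
        · intro ω ω' _ _ h
          simp only [Prod.mk.injEq] at h ⊢
          tauto
      rw [h1, h2]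
      unfold DD at hY
      linarith
    have hV : ∀ ω, 0 < cond p V v ω → V ω = v := fun ω h => ((cond_pos_iff hp.nonneg V v ω).mp h).2
    have h1 := ti1_thm d N Ω S Unit (cond p V v) (X s) (A t s) (fun _ => ()) o (g t s v)
      (Bd t s ∪ {ω | V ω ≠ v}) R ε ε a a' hl hN hR (by
        intro ω hω i
        simp only [Set.mem_union, Set.mem_ofPred_eq, not_or, not_not] at hω
        have h2 := hX t s ω hω.1 i
        rw [hω.2] at h2
        exact h2) (hc _ (hD s)) (hc _ (hA t s)) ha ha'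
    have h2 : Pr (cond p V v) (Bd t s ∪ {ω | V ω ≠ v}) ≤ ε' := by
      refine (Pool.KAF.Pr_mono hl.nonneg ?_).trans (hP t s)
      intro ω hω hE
      rcases hE with hE | hE
      · exact hE
      · exact absurd (hV ω hω) hE
    intro E
    refine (h1 E).trans ?_
    have h3 : Real.sqrt ε + Real.sqrt ε + Pr (cond p V v) (Bd t s ∪ {ω | V ω ≠ v}) ≤
        2 * Real.sqrt ε + ε' := by linarith
    gcongr

end Pool.CLU

namespace Pool.KX

open Finset Real
open Pool.Agent.H49.Ent Pool.Agent.H32.Dense Pool.STK Pool.KAF Pool.KAL Pool.KAL.TI Pool.CLU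

/-- Most values of the context have the invariances; the base variable depends on the pair. -/
theorem ctx_ati4 {Ω ι : Type} [Fintype Ω] [Fintype ι] {S β : Type} (p : Ω → ℝ) (o : Ω → S)
    (V : Ω → β) (X : ι → Ω → Fin 2 → ℤ) (A : ι → ι → Ω → Fin 2 → ℤ)
    (g : ι → ι → β → S → Fin 2 → ℤ) (Bd : ι → ι → Set Ω)
    (τ Th : β → ι → ℝ) (om : β → S → ℝ) (R e e' ε ε' e₂ p₁ : ℝ) (N L L₁ : ℕ)
    (hp : IsLaw p) (hN : 0 < N) (hR : 0 ≤ R) (hε : 0 < ε) (hε' : 0 < ε') (hp₁ : 0 < p₁)
    (hMI : ∀ s, Pool.KVA.MI p o (X s) V ≤ e) (hMA : ∀ t s, Pool.KVA.MI p o (A t s) V ≤ e')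
    (hX : ∀ t s ω, ω ∉ Bd t s → ∀ i, |((X s ω i - A t s ω i - g t s (V ω) (o ω) i : ℤ) : ℝ)| ≤ R)
    (hg : ∀ v t s a a', |(((g t s v a - g t s v a') 0 : ℤ) : ℝ) -
      2 ^ L * ((τ v t - τ v s) * (Th v t - Th v s)) * (om v a - om v a')| ≤ 1)
    (hg₁ : ∀ v t s a a', abs (((|(g t s v a - g t s v a') 1| : ℤ) : ℝ) -
      2 ^ L₁ * |τ v t - τ v s| * |om v a - om v a'|) ≤ 1)
    (he₂ : 2 * ((2 * Real.sqrt ε + ε') / p₁) + 2 * ((2 : ℕ) * R / N) ≤ e₂) :
    ∃ G : Set β, (∀ v ∈ G, 0 < law p V v) ∧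
      Pr p {ω | V ω ∉ G} ≤ (Fintype.card ι * e + (Fintype.card ι : ℝ) ^ 2 * e') / ε +
        (∑ t, ∑ s, Pr p (Bd t s)) / ε' ∧
      ∀ v ∈ G, ∀ a a', p₁ ≤ law (cond p V v) o a → p₁ ≤ law (cond p V v) o a' →
        ATI (cond p V v) X (τ v) (Th v) N L L₁ (om v a - om v a') e₂ := by
  obtain ⟨G, hG0, hG1, hG2⟩ :=
    clu4_thm 2 N Ω S β ι p o V X A g Bd R e e' ε ε' hp hN hR hε hε' hMI hMA hX
  refine ⟨G, hG0, hG1, ?_⟩
  intro v hv a a' ha ha'
  refine ⟨fun t s => g t s v a - g t s v a', ?_⟩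
  intro t s
  refine ⟨hg v t s a a', hg₁ v t s a a', ?_⟩
  intro E
  have h1 := hG2 v hv t s a a' (lt_of_lt_of_le hp₁ ha) (lt_of_lt_of_le hp₁ ha') E
  refine h1.trans (le_trans ?_ he₂)
  have hnum : 0 ≤ 2 * Real.sqrt ε + ε' := by positivity
  have e1 : (2 * Real.sqrt ε + ε') / law (cond p V v) o a ≤ (2 * Real.sqrt ε + ε') / p₁ :=
    div_le_div_of_nonneg_left hnum hp₁ ha
  have e2 : (2 * Real.sqrt ε + ε') / law (cond p V v) o a' ≤ (2 * Real.sqrt ε + ε') / p₁ :=
    div_le_div_of_nonneg_left hnum hp₁ ha'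
  linarith

end Pool.KX
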