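import Pool.Agent.H97.KAL.HBL

/-!
# The ledger with an order of the rows which depends on the place

`V i` are labels, `θ` runs over tiles, the tile `θ` leads from the label `V (s θ)` to the label
`V (e θ)`, which determines it. The events `E θ` say which tiles are used by a place; for every
place the used tiles form a chain from `V a` to `V b` (telescoping form). Then the entropy of `V b`
given `V a` is at least the sum of the entropies of the tiles under the laws conditioned on the
events, because minus the logarithm of a conditional probability is a cross entropy under the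
conditioned law.
-/

set_option autoImplicit false

namespace Pool.KX

open Finset Real
open Pool.Agent.H49.Ent Pool.Agent.H32.Dense Pool.STK Pool.KAF Pool.KAL

/-- **The ledger with a place dependent order.** -/
def GIBStmt : Prop :=
  ∀ (Ω σ τ ι Θ : Type) [Fintype Ω] [Fintype Θ] (p : Ω → ℝ) (Q : Ω → τ) (V : ι → Ω → σ)
    (s e : Θ → ι) (E : Θ → Ω → Prop) (a b : ι), IsLaw p →
    (∀ θ, Det p (fun v => (Q v, V (e θ) v)) (V (s θ))) →
    Det p (fun v => (Q v, V b v)) (V a) →
    (∀ ω, 0 < p ω → ∀ g : ι → ℝ,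
      (∑ θ, (open Classical in if E θ ω then g (e θ) - g (s θ) else 0)) = g b - g a) →
    ∑ θ, law p (E θ) True * CH (cond p (E θ) True) (V (e θ)) (fun v => (Q v, V (s θ) v)) ≤
      CH p (V b) (fun v => (Q v, V a v))

namespace GIB

variable {Ω σ τ : Type} [Fintype Ω]

/-- The marginal of a joint law. -/
lemma marg {p : Ω → ℝ} {S V : Type} [DecidableEq S] (X : Ω → S) (Y : Ω → V) (v : V) :
    ∑ x ∈ univ.image X, law p (fun ω => (X ω, Y ω)) (x, v) = law p Y v := by
  classical
  unfold law
  rw [Finset.sum_comm]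
  refine Finset.sum_congr rfl fun ω _ => ?_
  rw [Finset.sum_eq_single (X ω)]
  · simp only [Prod.mk.injEq, true_and]
  · intro x _ hx
    rw [if_neg]
    intro h
    exact hx (Prod.ext_iff.mp h).1.symm
  · intro h
    exact absurd (Finset.mem_image_of_mem X (Finset.mem_univ ω)) h

/-- **Gibbs' inequality under a second law.** -/
lemma gibbs {p q : Ω → ℝ} (hp : ∀ ω, 0 ≤ p ω) (hq : ∀ ω, 0 ≤ q ω)
    (hpq : ∀ ω, 0 < q ω → 0 < p ω) {S V : Type} (X : Ω → S) (Y : Ω → V) :
    CH q X Y ≤ -∑ ω, q ω * (Real.log (law p (fun ω => (X ω, Y ω)) (X ω, Y ω)) -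
      Real.log (law p Y (Y ω))) := by
  classical
  have hCH : CH q X Y = -∑ ω, q ω * (Real.log (law q (fun ω => (X ω, Y ω)) (X ω, Y ω)) -
      Real.log (law q Y (Y ω))) := by
    unfold CH H
    simp only [mul_sub, Finset.sum_sub_distrib]
    ring
  set G : S × V → ℝ := fun t => law p (fun ω => (X ω, Y ω)) t * law q Y t.2 / law p Y t.2 with hG
  have hG0 : ∀ t, 0 ≤ G t := fun t => div_nonneg (mul_nonneg (law_nonneg hp _ _)
    (law_nonneg hq _ _)) (law_nonneg hp _ _)
  have key : ∀ ω, q ω * ((Real.log (law p (fun ω => (X ω, Y ω)) (X ω, Y ω)) -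
      Real.log (law p Y (Y ω))) - (Real.log (law q (fun ω => (X ω, Y ω)) (X ω, Y ω)) -
      Real.log (law q Y (Y ω)))) ≤
      q ω * (G (X ω, Y ω) / law q (fun ω => (X ω, Y ω)) (X ω, Y ω)) - q ω := by
    intro ω
    rcases (hq ω).eq_or_lt with h0 | h0
    · simp [← h0]
    have h1 := law_pos hp (fun ω => (X ω, Y ω)) (hpq ω h0)
    have h2 := law_pos hp Y (hpq ω h0)
    have h3 := law_pos hq (fun ω => (X ω, Y ω)) h0
    have h4 := law_pos hq Y h0
    have h5 : (Real.log (law p (fun ω => (X ω, Y ω)) (X ω, Y ω)) -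
      Real.log (law p Y (Y ω))) - (Real.log (law q (fun ω => (X ω, Y ω)) (X ω, Y ω)) -
      Real.log (law q Y (Y ω))) =
        Real.log (G (X ω, Y ω) / law q (fun ω => (X ω, Y ω)) (X ω, Y ω)) := by
      rw [hG]
      simp only
      rw [Real.log_div (by positivity) (by positivity), Real.log_div (by positivity)
        (by positivity), Real.log_mul h1.ne' h4.ne']
      ring
    rw [h5]
    have h6 := Real.log_le_sub_one_of_pos
      (x := G (X ω, Y ω) / law q (fun ω => (X ω, Y ω)) (X ω, Y ω)) (by
        rw [hG]; positivity)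
    have := mul_le_mul_of_nonneg_left h6 h0.le
    linarith
  have hsum := Finset.sum_le_sum fun ω (_ : ω ∈ (univ : Finset Ω)) => key ω
  rw [Finset.sum_sub_distrib] at hsum
  have hratio : ∑ ω, q ω * (G (X ω, Y ω) / law q (fun ω => (X ω, Y ω)) (X ω, Y ω)) ≤
      ∑ ω, q ω := by
    have e1 := sum_mul_eq_sum_image q (fun ω => (X ω, Y ω)) (fun t : S × V =>
      G t / law q (fun ω => (X ω, Y ω)) t)
    rw [e1]
    have hsub : univ.image (fun ω => (X ω, Y ω)) ⊆ univ.image X ×ˢ univ.image Y := by
      intro t ht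
      rw [mem_image] at ht
      obtain ⟨ω, -, rfl⟩ := ht
      exact mem_product.2 ⟨mem_image_of_mem X (mem_univ ω), mem_image_of_mem Y (mem_univ ω)⟩
    calc ∑ t ∈ univ.image (fun ω => (X ω, Y ω)), law q (fun ω => (X ω, Y ω)) t *
          (G t / law q (fun ω => (X ω, Y ω)) t)
        ≤ ∑ t ∈ univ.image (fun ω => (X ω, Y ω)), G t := by
          refine Finset.sum_le_sum fun t _ => ?_
          rcases (law_nonneg hq (fun ω => (X ω, Y ω)) t).eq_or_lt with h0 | h0
          · rw [← h0, zero_mul]
            exact hG0 t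
          · apply le_of_eq
            field_simp
      _ ≤ ∑ t ∈ univ.image X ×ˢ univ.image Y, G t :=
          Finset.sum_le_sum_of_subset_of_nonneg hsub fun t _ _ => hG0 t
      _ ≤ ∑ v ∈ univ.image Y, law q Y v := by
          rw [Finset.sum_product_right]
          refine Finset.sum_le_sum fun v _ => ?_
          simp only [hG]
          rw [← Finset.sum_div, ← Finset.sum_mul, marg X Y v]
          rcases (law_nonneg hp Y v).eq_or_lt with h0 | h0
          · rw [← h0]
            simp only [zero_mul, zero_div]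
            exact law_nonneg hq Y v
          · apply le_of_eq
            field_simp
      _ = ∑ ω, q ω := sum_law q Y
  have hexp : ∑ ω, q ω * ((Real.log (law p (fun ω => (X ω, Y ω)) (X ω, Y ω)) -
      Real.log (law p Y (Y ω))) - (Real.log (law q (fun ω => (X ω, Y ω)) (X ω, Y ω)) -
      Real.log (law q Y (Y ω)))) = CH q X Y + ∑ ω, q ω *
      (Real.log (law p (fun ω => (X ω, Y ω)) (X ω, Y ω)) - Real.log (law p Y (Y ω))) := by
    rw [hCH, ← Finset.sum_neg_distrib, ← Finset.sum_add_distrib]
    refine Finset.sum_congr rfl fun ω _ => ?_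
    ring
  rw [hexp] at hsum
  linarith

open Classical in
/-- The entropy of a tile under the conditioned law is at most its mean information. -/
lemma tile {p : Ω → ℝ} (hp : ∀ ω, 0 ≤ p ω) {S V : Type} (X : Ω → S) (Y : Ω → V)
    (E : Ω → Prop) : law p E True * CH (cond p E True) X Y ≤
      ∑ ω, p ω * (if E ω then Real.log (law p Y (Y ω)) -
        Real.log (law p (fun ω => (X ω, Y ω)) (X ω, Y ω)) else 0) := by
  rcases (law_nonneg hp E True).eq_or_lt with h0 | h0
  · rw [← h0, zero_mul]
    refine le_of_eq (Eq.symm (Finset.sum_eq_zero fun ω _ => ?_))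
    by_cases hE : E ω
    · have h1 := le_law hp E ω
      have h2 : E ω = True := eq_true hE
      rw [h2, ← h0] at h1
      rw [le_antisymm h1 (hp ω), zero_mul]
    · rw [if_neg hE, mul_zero]
  have hq0 := cond_nonneg hp E True
  have h1 := gibbs hp hq0 (fun ω hω => ((cond_pos_iff hp E True ω).1 hω).1) X Y
  have h2 := mul_le_mul_of_nonneg_left h1 h0.le
  refine h2.trans (le_of_eq ?_)
  rw [mul_neg, Finset.mul_sum, ← Finset.sum_neg_distrib]
  refine Finset.sum_congr rfl fun ω _ => ?_
  by_cases hE : E ω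
  · have h3 : E ω = True := eq_true hE
    have h4 : Pool.Agent.H49.Ent.cond p E True ω = p ω / law p E True := by
      unfold Pool.Agent.H49.Ent.cond
      rw [if_pos h3]
    rw [if_pos hE, h4]
    field_simp
    ring
  · have h3 : ¬ (E ω = True) := fun h => hE (h ▸ trivial)
    have h4 : Pool.Agent.H49.Ent.cond p E True ω = 0 := by
      unfold Pool.Agent.H49.Ent.cond
      rw [if_neg h3]
    rw [if_neg hE, h4]
    ring

end GIB

open Classical in
theorem gib_thm : GIBStmt := by
  intro Ω σ τ ι Θ _ _ p Q V s e E a b hp hs hb hE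
  have hp0 := hp.nonneg
  -- the information of a label
  obtain ⟨L, hL⟩ : ∃ L : ι → Ω → ℝ, L = fun i ω =>
    -Real.log (law p (fun v => (Q v, V i v)) (Q ω, V i ω)) := ⟨_, rfl⟩
  have hlaw : ∀ i j : ι, Det p (fun v => (Q v, V j v)) (V i) → ∀ ω, 0 < p ω →
      law p (fun v => (V j v, (Q v, V i v))) (V j ω, (Q ω, V i ω)) =
        law p (fun v => (Q v, V j v)) (Q ω, V j ω) := by
    intro i j hd ω hω
    unfold law
    refine Finset.sum_congr rfl fun v _ => ?_
    rcases (hp0 v).eq_or_lt with h0 | h0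
    · simp [← h0]
    by_cases h : (Q v, V j v) = (Q ω, V j ω)
    · have h1 := hd v ω h0 hω h
      have h2 := Prod.ext_iff.mp h
      rw [if_pos h, if_pos (Prod.ext h2.2 (Prod.ext h2.1 h1))]
    · rw [if_neg h, if_neg]
      intro h1
      have h2 := Prod.ext_iff.mp h1
      have h3 := Prod.ext_iff.mp h2.2
      exact h (Prod.ext h3.1 h2.1)
  have hCH : CH p (V b) (fun v => (Q v, V a v)) = ∑ ω, p ω * (L b ω - L a ω) := by
    unfold CH H
    rw [sub_eq_add_neg, neg_neg, ← Finset.sum_neg_distrib, ← Finset.sum_add_distrib]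
    refine Finset.sum_congr rfl fun ω _ => ?_
    rcases (hp0 ω).eq_or_lt with h0 | h0
    · simp [← h0]
    · rw [hlaw a b hb ω h0, hL]
      ring
  have hT : ∀ θ, law p (E θ) True * CH (cond p (E θ) True) (V (e θ)) (fun v => (Q v, V (s θ) v)) ≤
      ∑ ω, p ω * (if E θ ω then L (e θ) ω - L (s θ) ω else 0) := by
    intro θ
    refine (GIB.tile hp0 (V (e θ)) (fun v => (Q v, V (s θ) v)) (E θ)).trans (le_of_eq ?_)
    refine Finset.sum_congr rfl fun ω _ => ?_
    rcases (hp0 ω).eq_or_lt with h0 | h0
    · simp [← h0]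
    · rw [hlaw (s θ) (e θ) (hs θ) ω h0, hL]
      split_ifs <;> ring
  refine (Finset.sum_le_sum fun θ _ => hT θ).trans (le_of_eq ?_)
  rw [Finset.sum_comm, hCH]
  refine Finset.sum_congr rfl fun ω _ => ?_
  rw [← Finset.mul_sum]
  rcases (hp0 ω).eq_or_lt with h0 | h0
  · simp [← h0]
  · congr 1
    exact hE ω h0 (fun i => L i ω)

end Pool.KX
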